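import Pool.Agent.GLE.StmtsA
import Pool.Agent.GLE.StmtsC

/-!
# GLE, row KAP: the weighted sum of the energies of the test functions
-/

namespace Pool.Agent.GLE.H65

open Polynomial MeasureTheory

/-- the choice of the block length -/
theorem exists_b (C e : ℝ) (hC : 0 < C) (he : 0 < e) : ∃ b : ℕ, 1 ≤ b ∧
    1 + C * b * 2 ^ b ≤ ((2 : ℝ) ^ b) ^ (1 + e) := by
  have hr : 1 < (2 : ℝ) ^ e := Real.one_lt_rpow (by norm_num) he
  have h1 := tendsto_pow_const_div_const_pow_of_one_lt 1 hr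
  have h2 := (h1.eventually (gt_mem_nhds (show (0 : ℝ) < 1 / (1 + C) by positivity))).and
    (Filter.eventually_ge_atTop 1)
  obtain ⟨b, hb, hb1⟩ := h2.exists
  refine ⟨b, hb1, ?_⟩
  have hb1' : (1 : ℝ) ≤ b := by exact_mod_cast hb1
  have h3 : (1 + C) * b ≤ ((2 : ℝ) ^ e) ^ b := by
    rw [pow_one, div_lt_div_iff₀ (by positivity) (by positivity)] at hb
    linarith
  have h4 : ((2 : ℝ) ^ b) ^ (1 + e) = 2 ^ b * ((2 : ℝ) ^ e) ^ b := by
    rw [Real.rpow_add (by positivity), Real.rpow_one, ← Real.rpow_natCast (2 : ℝ) b,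
      ← Real.rpow_natCast ((2 : ℝ) ^ e) b, ← Real.rpow_mul (by norm_num), ← Real.rpow_mul
      (by norm_num), mul_comm (b : ℝ) e]
  rw [h4]
  have h5 : (1 : ℝ) ≤ 2 ^ b := one_le_pow₀ (by norm_num)
  calc 1 + C * b * 2 ^ b ≤ 2 ^ b * (1 + C * b) := by nlinarith
    _ ≤ 2 ^ b * ((1 + C) * b) := by
      apply mul_le_mul_of_nonneg_left _ (by positivity)
      nlinarith
    _ ≤ 2 ^ b * ((2 : ℝ) ^ e) ^ b := mul_le_mul_of_nonneg_left h3 (by positivity)

theorem tau_nonneg (b k : ℕ) : 0 ≤ tau b k :=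
  integral_nonneg fun _ => sq_nonneg _

/-- row KAP -/
theorem kap (tst : TstStmt) (sum : SumStmt) (mon : MonStmt) : KapStmt := by
  intro e he
  obtain ⟨Ct, hCt, hT⟩ := tst
  obtain ⟨Cs, hCs, hS⟩ := sum
  obtain ⟨b, hb1, hb⟩ := exists_b Cs e hCs he
  obtain ⟨x, hx⟩ : ∃ x : ℝ, x = 2 ^ b := ⟨_, rfl⟩
  have hx1 : 1 < x := by
    rw [hx]
    exact one_lt_pow₀ (by norm_num) (by omega)
  have hx0 : 0 < x := by linarith
  have hρ : x ^ (-e) < 1 := Real.rpow_lt_one_of_one_lt_of_neg hx1 (by linarith)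
  have hρ0 : 0 < x ^ (-e) := Real.rpow_pos_of_pos hx0 _
  obtain ⟨A, hA⟩ : ∃ A : ℝ, A = 2 * Ct * x ^ (2 + e) := ⟨_, rfl⟩
  have hA0 : 0 < A := by
    rw [hA]
    positivity
  have h1ρ : 0 < 1 - x ^ (-e) := by linarith
  have hB2 : 1 < 2 ^ b := Nat.one_lt_two_pow (by omega)
  -- one block
  have block : ∀ J : ℕ, ∑ k ∈ Finset.Ico (2 ^ (b * J)) (2 ^ (b * (J + 1))),
      tau b k * (k : ℝ) ^ (-2 - 2 * e) ≤ A * (x ^ (-e)) ^ J := by
    intro J
    obtain ⟨I, hI⟩ : ∃ I, I = Finset.Ico (2 ^ (b * J)) (2 ^ (b * (J + 1))) := ⟨_, rfl⟩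
    rw [← hI]
    have hmem : ∀ k ∈ I, (2 ^ b) ^ J ≤ k ∧ k < (2 ^ b) ^ (J + 1) := by
      intro k hk
      rw [hI, Finset.mem_Ico, pow_mul, pow_mul] at hk
      exact hk
    obtain ⟨K, hK⟩ : ∃ K : ℝ, K = (1 + Cs * b * 2 ^ b) ^ (J + 1) := ⟨_, rfl⟩
    have hK0 : 0 ≤ K := by
      rw [hK]
      positivity
    have h1 := hT (1 + b * (J + 1)) I (fun k => Pk b (X : ℝ[X]) k) K (by omega) hK0 (by
      intro z hz
      have h2 := hS b (J + 1) z hb1 hz
      rw [hK]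
      refine le_trans ?_ h2
      have h3 : ∑ k ∈ I, ‖aeval z (Pk b (X : ℝ[X]) k)‖ ^ 2 = ∑ k ∈ I, ‖Pk b z k‖ ^ 2 :=
        Finset.sum_congr rfl fun k _ => by rw [(mon b k hb1).2.2 z]
      rw [h3]
      refine Finset.sum_le_sum_of_subset_of_nonneg ?_ (fun _ _ _ => sq_nonneg _)
      intro k hk
      exact Finset.mem_range.2 (hmem k hk).2)
    have h4 : ∑ k ∈ I, tau b k ≤ Ct * 2 ^ (1 + b * (J + 1)) * K := by
      refine le_trans (le_of_eq ?_) h1
      refine Finset.sum_congr rfl fun k hk => ?_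
      have h5 : Nat.log (2 ^ b) k = J :=
        Nat.log_eq_of_pow_le_of_lt_pow (hmem k hk).1 (hmem k hk).2
      have h6 : ph b k = fun z => (aeval z (Pk b (X : ℝ[X]) k)).re * Th (1 + b * (J + 1)) z := by
        funext z
        rw [ph, h5, (mon b k hb1).2.2 z]
      rw [tau, h6]
    have h7 : ∀ k ∈ I, tau b k * (k : ℝ) ^ (-2 - 2 * e) ≤ tau b k * (x ^ J) ^ (-2 - 2 * e) := by
      intro k hk
      refine mul_le_mul_of_nonneg_left ?_ (tau_nonneg b k)
      have h8 : x ^ J ≤ (k : ℝ) := by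
        rw [hx]
        exact_mod_cast (hmem k hk).1
      exact Real.rpow_le_rpow_of_nonpos (by positivity) h8 (by linarith)
    have h9 : K ≤ (x ^ (1 + e)) ^ (J + 1) := by
      rw [hK, hx]
      exact pow_le_pow_left₀ (by positivity) hb _
    calc ∑ k ∈ I, tau b k * (k : ℝ) ^ (-2 - 2 * e)
        ≤ ∑ k ∈ I, tau b k * (x ^ J) ^ (-2 - 2 * e) := Finset.sum_le_sum h7
      _ = (∑ k ∈ I, tau b k) * (x ^ J) ^ (-2 - 2 * e) := by rw [Finset.sum_mul]
      _ ≤ (Ct * 2 ^ (1 + b * (J + 1)) * (x ^ (1 + e)) ^ (J + 1)) * (x ^ J) ^ (-2 - 2 * e) := by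
          refine mul_le_mul_of_nonneg_right ?_ (by positivity)
          exact h4.trans (mul_le_mul_of_nonneg_left h9 (by positivity))
      _ = A * (x ^ (-e)) ^ J := by
          have h10 : (2 : ℝ) ^ (1 + b * (J + 1)) = 2 * x ^ (J + 1) := by
            rw [hx, ← pow_mul, pow_add, pow_one]
          rw [h10, hA]
          have h11 : x ^ (J + 1) * (x ^ (1 + e)) ^ (J + 1) * (x ^ J) ^ (-2 - 2 * e) =
              x ^ (2 + e) * (x ^ (-e)) ^ J := by
            rw [← Real.rpow_natCast x (J + 1), ← Real.rpow_natCast (x ^ (1 + e)) (J + 1),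
              ← Real.rpow_natCast x J, ← Real.rpow_natCast (x ^ (-e)) J, ← Real.rpow_mul hx0.le,
              ← Real.rpow_mul hx0.le, ← Real.rpow_mul hx0.le, ← Real.rpow_add hx0,
              ← Real.rpow_add hx0, ← Real.rpow_add hx0]
            congr 1
            push_cast
            ring
          linear_combination (2 * Ct) * h11
  have key : ∀ J : ℕ, ∑ k ∈ Finset.Ico 1 (2 ^ (b * J)), tau b k * (k : ℝ) ^ (-2 - 2 * e) ≤
      A * (1 - (x ^ (-e)) ^ J) / (1 - x ^ (-e)) := by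
    intro J
    induction J with
    | zero => simp
    | succ J ih =>
      rw [← Finset.sum_Ico_consecutive _ (Nat.one_le_two_pow : 1 ≤ 2 ^ (b * J))
        (Nat.pow_le_pow_right (by norm_num) (Nat.mul_le_mul_left b (Nat.le_succ J)))]
      refine (add_le_add ih (block J)).trans (le_of_eq ?_)
      rw [pow_succ]
      field_simp
      ring
  refine ⟨b, hb1, A / (1 - x ^ (-e)), by positivity, fun J0 => (key J0).trans ?_⟩
  apply div_le_div_of_nonneg_right _ h1ρ.le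
  have h12 : 0 < (x ^ (-e)) ^ J0 := by positivity
  nlinarith

end Pool.Agent.GLE.H65
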